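import Mathlib
import Pool.Graph.R_seed8.W748.NM.Entropy

/-! # Uncountably many parameters with a neutral measure of large entropy on the support -/

set_option autoImplicit false

open Filter Topology Set MeasureTheory

namespace Pool.Agent.H99.NM

open Pool.Agent.W748.NM

variable {c p x1 x2 κ : ℝ} {n k : ℕ} {μ : ProbabilityMeasure II}

/-! ### The exponent of a good parameter is determined by the parameter -/

theorem Br_S_mul (h : Br c n x1 x2 κ p) (φ : ℝ → ℝ) (i m : ℕ) :
    S c (m * n) φ (it c i p) = m * S c n φ p := by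
  induction m with
  | zero => simp [S]
  | succ m ih =>
    have e : (m + 1) * n = m * n + n := by ring
    rw [e, S_add, ← it_add]
    have h2 : S c (m * n) φ (it c (n + i) p) = S c (m * n) φ (it c i p) := by
      rw [← h.it_mod (n + i), ← h.it_mod i]
      congr 2
      rw [Nat.add_mod_left]
    rw [h2, ih, h.S_shift]
    push_cast
    ring

theorem exponent_unique {p' x1' x2' κ' : ℝ} {n' k' : ℕ} (h : Good c p n k x1 x2 κ)
    (h' : Good c p' n' k' x1' x2' κ') :
    Real.log (dv c n p) / n = Real.log (dv c n' p') / n' := by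
  have hn : (0 : ℝ) < n := by exact_mod_cast h.br.npos
  have hn' : (0 : ℝ) < n' := by exact_mod_cast h'.br.npos
  have e1 : it c (max k k') c = it c (max k k' - k) p := by
    rw [← h.hk, ← it_add]
    congr 1
    omega
  have e2 : it c (max k k') c = it c (max k k' - k') p' := by
    rw [← h'.hk, ← it_add]
    congr 1
    omega
  have s1 := Br_S_mul h.br (fun x => Real.log |2 * x|) (max k k' - k) n'
  have s2 := Br_S_mul h'.br (fun x => Real.log |2 * x|) (max k k' - k') n
  rw [← e1, h.br.log_eq] at s1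
  rw [← e2, h'.br.log_eq, mul_comm n n'] at s2
  rw [div_eq_div_iff hn.ne' hn'.ne']
  linarith

/-- a pair in `E` is a limit of pairs in `E` with other parameters -/
theorem mem_closure_ne {x : ℝ × ProbabilityMeasure II} (hx : x ∈ E) (d : ℝ) :
    x ∈ closure {y | y ∈ E ∧ y.1 ≠ d} := by
  by_cases hd : x.1 = d
  · obtain ⟨p, n, k, x1, x2, κ, hG, hOM⟩ := id hx
    have hn : (0 : ℝ) < n := by exact_mod_cast hG.br.npos
    have hpos : 0 < Real.log (dv x.1 n p) / n := div_pos hG.br.log_pos hn
    have h1 := E_sub_Et hpos hx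
    refine closure_mono ?_ h1
    intro y hy
    refine ⟨Et_sub _ hy, fun hyd => ?_⟩
    obtain ⟨p', n', k', x1', x2', κ', hG', hOM', hlt⟩ := hy
    have e : y.1 = x.1 := by rw [hyd, hd]
    rw [e] at hG' hlt
    have := exponent_unique hG hG'
    linarith
  · exact subset_closure ⟨hx, hd⟩

/-- local generic points avoiding a countable set of parameters -/
theorem exists_gen_avoid {c0 p0 : ℝ} (hG0 : Good c0 p0 n k x1 x2 κ) {U : Set ℝ} (hU : IsOpen U)
    (hc0 : c0 ∈ U) {D : Set ℝ} (hD : D.Countable) :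
    ∃ (c : ℝ) (μ : ProbabilityMeasure II), c ∈ U ∧ c ∉ D ∧ Gen c μ := by
  set X : Set (ℝ × ProbabilityMeasure II) := closure E with hX
  have hXCC : X ⊆ CC := closure_minimal E_sub_CC CC_closed
  have hXcomp : IsCompact X := by
    refine IsCompact.of_isClosed_subset (s := PR ×ˢ univ) (isCompact_Icc.prod isCompact_univ)
      isClosed_closure fun x hx => ⟨(hXCC hx).1, mem_univ _⟩
  have : CompactSpace ↥X := isCompact_iff_compactSpace.1 hXcomp
  let φs := TopologicalSpace.denseSeq C(II, ℝ)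
  let W : ((ℕ × ℕ) × List Bool) ⊕ D → Set (ℝ × ProbabilityMeasure II) := fun q =>
    match q with
    | Sum.inl q => W1 (φs q.1.1) (1 / ((q.1.2 : ℝ) + 1)) ∩ W2 (1 / ((q.1.2 : ℝ) + 1)) ∩ W3 q.2 ∩
      W4 (φs q.1.1) (1 / ((q.1.2 : ℝ) + 1))
    | Sum.inr d => {x | x.1 ≠ (d : ℝ)}
  have hWo : ∀ q, IsOpen (W q) := by
    rintro (q | d)
    · exact (((W1_open _ _).inter (W2_open _)).inter (W3_open _)).inter (W4_open _ _)
    · exact isOpen_ne_fun continuous_fst continuous_const
  have hWd : ∀ q, X ⊆ closure (X ∩ W q) := by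
    rintro (q | d)
    · have hε : (0 : ℝ) < 1 / ((q.1.2 : ℝ) + 1) := by positivity
      refine closure_minimal ((E_sub_EtW hε q.2).trans (closure_mono fun x hx => ?_))
        isClosed_closure
      have hxE : x ∈ E := Et_sub _ hx.1
      exact ⟨subset_closure hxE, ⟨⟨⟨E_sub_W1 _ hε hxE, Et_sub_W2 _ hx.1⟩, hx.2⟩,
        E_sub_W4 _ hε hxE⟩⟩
    · refine closure_minimal (fun x hx => ?_) isClosed_closure
      refine closure_mono ?_ (mem_closure_ne hx d)
      intro y hy
      exact ⟨subset_closure hy.1, hy.2⟩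
  let W' : ((ℕ × ℕ) × List Bool) ⊕ D → Set ↥X := fun q => Subtype.val ⁻¹' (W q)
  have hW'o : ∀ q, IsOpen (W' q) := fun q => (hWo q).preimage continuous_subtype_val
  have hW'd : ∀ q, Dense (W' q) := by
    intro q
    rw [Subtype.dense_iff]
    intro x hx
    have : Subtype.val '' (W' q) = X ∩ W q := by
      rw [Subtype.image_preimage_coe]
    rw [this]
    exact hWd q hx
  have : Countable D := hD.to_subtype
  have hdense := dense_iInter_of_isOpen hW'o hW'd
  obtain ⟨μ, hμ⟩ := exists_OM c0 hG0.br.npos p0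
  let V : Set ↥X := {x | x.1.1 ∈ U}
  have hV : IsOpen V := hU.preimage (continuous_fst.comp continuous_subtype_val)
  have hVne : V.Nonempty :=
    ⟨⟨(c0, μ), subset_closure ⟨p0, n, k, x1, x2, κ, hG0, hμ⟩⟩, hc0⟩
  obtain ⟨x, hx, hxV⟩ := hdense.exists_mem_open hV hVne
  rw [mem_iInter] at hx
  refine ⟨x.1.1, x.1.2, hxV, fun hxD => ?_, ⟨hXCC x.2, fun i j => ?_, fun j => ?_, fun v => ?_,
    fun i j => ?_⟩⟩
  · exact hx (Sum.inr ⟨x.1.1, hxD⟩) rfl
  · exact (hx (Sum.inl ((i, j), []))).1.1.1
  · exact (hx (Sum.inl ((0, j), []))).1.1.2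
  · exact (hx (Sum.inl ((0, 0), v))).1.2
  · exact (hx (Sum.inl ((i, j), []))).2

end Pool.Agent.H99.NM
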