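import Mathlib
import Pool.Agent.H99.NM.Many

/-! # Visiting an arbitrary inverse branch -/

set_option autoImplicit false

open Filter Topology Set MeasureTheory

namespace Pool.Agent.H99.NM

open Pool.Agent.W748.NM

variable {c p x1 x2 κ : ℝ} {n k : ℕ} {μ : ProbabilityMeasure II}

/-- there is an inverse branch of an iterate on `AB`, with values in `AB` satisfying `Q` -/
def HasBranch (c : ℝ) (Q : ℝ → Prop) : Prop :=
  ∃ (g : ℝ → ℝ) (M : ℕ), ContinuousOn g AB ∧ (∀ y ∈ AB, g y ∈ AB) ∧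
    (∀ y ∈ AB, it c M (g y) = y) ∧ (∀ y ∈ AB, dv c M (g y) ≠ 0) ∧ ∀ y ∈ AB, Q (g y)

/-- the mass of the function `ψ` is positive -/
def WW (ψ : ℝ × ℝ → ℝ) : Set (ℝ × ProbabilityMeasure II) :=
  {x | 0 < ∫ t : II, ψ (x.1, (t : ℝ)) ∂(x.2 : Measure II)}

theorem WW_cont {ψ : ℝ × ℝ → ℝ} (hψ : Continuous ψ) : Continuous fun q : ℝ × II => ψ (q.1, q.2) :=
  hψ.comp (continuous_fst.prodMk (continuous_subtype_val.comp continuous_snd))

theorem WW_open {ψ : ℝ × ℝ → ℝ} (hψ : Continuous ψ) : IsOpen (WW ψ) := by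
  have h := cont_int (P := ℝ) (Y := ℝ × ProbabilityMeasure II) (WW_cont hψ) continuous_fst
    continuous_snd
  exact isOpen_lt continuous_const h

theorem WW_of {ψ : ℝ × ℝ → ℝ} (hψ : Continuous ψ) (hψ0 : ∀ q, 0 ≤ ψ q) {i : ℕ}
    (h : Br c n x1 x2 κ p) (hc : c ∈ PR) (hμ : OM c n p μ)
    (hi : 0 < ψ (c, it c i p)) : 0 < ∫ t : II, ψ (c, (t : ℝ)) ∂(μ : Measure II) := by
  have hcont : Continuous fun t : II => ψ (c, (t : ℝ)) :=
    (WW_cont hψ).comp (continuous_const.prodMk continuous_id)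
  rw [hμ.integral hcont]
  have hn : (0 : ℝ) < n := by exact_mod_cast h.npos
  refine div_pos ?_ hn
  unfold S
  refine Finset.sum_pos' (fun j _ => hψ0 _) ⟨i % n, Finset.mem_range.2
    (Nat.mod_lt _ h.npos), ?_⟩
  beta_reduce
  rw [h.io_orbit hc, h.it_mod]
  exact hi

theorem exists_SU_gen (h : Good c p n k x1 x2 κ) {Q : ℝ → Prop} (hQ : HasBranch c Q) :
    ∃ (G : ℝ → ℝ) (s r0 mk Mk : ℝ) (m : ℕ) (Φ : ℝ → ℝ) (i0 j : ℕ),
      SU c n x1 x2 κ p G k s r0 mk Mk m Φ [] i0 ∧ ∀ y ∈ AB, Q (it c j (Φ y)) := by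
  obtain ⟨g, M, b1, b2, b3, b4, b5⟩ := hQ
  obtain ⟨G, g1, g2, g3, g4, g5, g6⟩ := h.br.exists_inv
  obtain ⟨s, r0, mk, Mk, hs, hr0, hr1, hm, hmM⟩ := exists_local (h.br.dvk_ne h.hk)
  obtain ⟨m, H, H1, H2, H3, H4, H5⟩ := h.side s hs
  refine ⟨G, s, r0, mk, Mk, M + m, fun y => H (g y), m, m,
    { toBr := h.br, g1 := g1, g2 := g2, g3 := g3, g4 := g4, g5 := g5, g6 := g6,
      hc := h.cPR, hk := h.hk, hs := hs, hr0 := hr0, hr1 := hr1, hm := hm, hmM := hmM,
      Φ1 := H1.comp b1 b2, Φ2 := fun y hy => H2 _ (b2 y hy),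
      Φ3 := fun y hy => H3 _ (b2 y hy), Φ4 := ?_, Φ5 := ?_, Φ6 := ?_ }, ?_⟩
  · intro y hy
    rw [it_add, H4 _ (b2 y hy), b3 y hy]
  · intro y hy
    rw [dv_add, H4 _ (b2 y hy)]
    exact mul_ne_zero (H5 _ (b2 y hy)) (b4 y hy)
  · intro y hy
    simp [psi]
  · intro y hy
    beta_reduce
    rw [H4 _ (b2 y hy)]
    exact b5 y hy

section

variable {G : ℝ → ℝ} {s r0 mk Mk : ℝ} {m : ℕ} {Φ : ℝ → ℝ} {v : List Bool} {i0 : ℕ}

/-- one step in phase space: for every large `N` a new orbit; exponents are nearly halved and the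
orbit measures converge -/
theorem phase_visit (h : SU c n x1 x2 κ p G k s r0 mk Mk m Φ v i0) :
    ∃ (N0 : ℕ) (n' : ℕ → ℕ) (w1 w2 p1 : ℕ → ℝ), (∀ N, N0 ≤ N →
      Br c (n' N) (w1 N) (w2 N) 2 (p1 N) ∧ 0 < w1 N ∧ w2 N < 1 / 5 ∧
      it c (n' N) (w1 N) ≤ -(31 / 20) ∧ 31 / 20 ≤ it c (n' N) (w2 N) ∧
      ∃ i, ∃ y ∈ AB, it c i (p1 N) = Φ y) ∧
      (∀ ε : ℝ, 0 < ε → ∃ N1 : ℕ, ∀ N, N1 ≤ N → N0 ≤ N →
        |Real.log (dv c (n' N) (p1 N)) / (n' N) - Real.log (dv c n p) / n / 2| ≤ ε) ∧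
      (∀ φ : ℝ → ℝ, Continuous φ → ∀ ε : ℝ, 0 < ε → ∃ N1 : ℕ, ∀ N, N1 ≤ N → N0 ≤ N →
        |S c (n' N) φ (p1 N) / (n' N) - S c n φ p / n| ≤ ε) := by
  obtain ⟨N0, hN0⟩ := h.newBranch
  choose! w1 w2 p1 H using hN0
  have hnpos := h.toBr.npos
  have hrt : ∀ N, rt n k m N + rt n k m N = (2 * n) * N + 2 * (m + (k + 1)) := by
    intro N; rw [rt]; ring
  refine ⟨N0, fun N => rt n k m N + rt n k m N, w1, w2, p1, fun N hN => ?_, ?_, ?_⟩
  · obtain ⟨a1, a2, a3, a4, a5, a6, a7, a8⟩ := H N hN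
    obtain ⟨-, -, y, hy, e⟩ := a6
    exact ⟨a1, a2, a3.trans_lt h.hr1, a4, a5, _, y, hy, (h.it_Z hy e).1⟩
  · intro ε hε
    obtain ⟨N1, hN1⟩ := ratio_lim (a := fun N => Real.log (dv c (rt n k m N + rt n k m N) (p1 N)))
      (A := Real.log (dv c n p)) (n := 2 * n) (q := 2 * (m + (k + 1))) (N0 := N0) (by omega) (by
        intro η hη
        obtain ⟨C, hC, h1⟩ := h.logdv_Z (half_pos hη)
        refine ⟨2 * C, by positivity, fun N hN => ?_⟩
        obtain ⟨a1, a2, a3, a4, a5, a6, a7, a8⟩ := H N hN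
        obtain ⟨b1, b2⟩ := h1 N _ a6
        obtain ⟨b3, b4⟩ := h1 N _ a7
        have e : Real.log (dv c (rt n k m N + rt n k m N) (p1 N)) =
            Real.log |dv c (rt n k m N) (p1 N)| +
            Real.log |dv c (rt n k m N) (it c (rt n k m N) (p1 N))| := by
          rw [dv_add, ← Real.log_abs, abs_mul,
            Real.log_mul (abs_ne_zero.2 b1) (abs_ne_zero.2 b3)]
        rw [e]
        have c1 := abs_le.1 b2
        have c2 := abs_le.1 b4
        rw [abs_le]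
        constructor
        · linarith [c1.1, c2.1]
        · linarith [c1.2, c2.2]) ε hε
    refine ⟨N1, fun N h1 h2 => ?_⟩
    have := hN1 N h1 h2
    rw [← hrt N] at this
    have e : Real.log (dv c n p) / n / 2 = Real.log (dv c n p) / ((2 * n : ℕ) : ℝ) := by
      push_cast
      rw [div_div, mul_comm]
    rw [e]
    exact this
  · intro φ hφ ε hε
    obtain ⟨N1, hN1⟩ := ratio_lim (a := fun N => S c (rt n k m N + rt n k m N) φ (p1 N))
      (A := 2 * S c n φ p) (n := 2 * n) (q := 2 * (m + (k + 1))) (N0 := N0) (by omega) (by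
        intro η hη
        obtain ⟨C, hC, h1⟩ := h.S_Z hφ (half_pos hη)
        refine ⟨2 * C, by positivity, fun N hN => ?_⟩
        obtain ⟨a1, a2, a3, a4, a5, a6, a7, a8⟩ := H N hN
        have b2 := h1 N _ a6
        have b4 := h1 N _ a7
        rw [S_add]
        have c1 := abs_le.1 b2
        have c2 := abs_le.1 b4
        rw [abs_le]
        constructor
        · linarith [c1.1, c2.1]
        · linarith [c1.2, c2.2]) ε hε
    refine ⟨N1, fun N h1 h2 => ?_⟩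
    have := hN1 N h1 h2
    rw [← hrt N] at this
    have e : S c n φ p / n = 2 * S c n φ p / ((2 * n : ℕ) : ℝ) := by
      have hn' : (n : ℝ) ≠ 0 := by exact_mod_cast hnpos.ne'
      push_cast
      field_simp
    rw [e]
    exact this


end

theorem step_gen {ψ : ℝ × ℝ → ℝ} (hψc : Continuous ψ) (hψ0 : ∀ q, 0 ≤ ψ q)
    {x : ℝ × ProbabilityMeasure II} {τ0 τ : ℝ} (hx : x ∈ Et τ0)
    (hbr : HasBranch x.1 fun t => 0 < ψ (x.1, t)) (hτ : τ0 / 2 ≤ τ) :
    x ∈ closure (Et τ ∩ WW ψ) := by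
  obtain ⟨p0, n, k, x1, x2, κ, hG, hOM, hχ⟩ := hx
  obtain ⟨c0, μ0⟩ := x
  simp only at hG hOM hχ
  simp only at hbr
  obtain ⟨G, s, r0, mk, Mk, m, Φ, i0, jv, hSU, hjv⟩ := exists_SU_gen hG hbr
  obtain ⟨N0, n', w1, w2, p1, H, Hχ, Hφ⟩ := phase_visit hSU
  set χ := Real.log (dv c0 n p0) / n with hχdef
  have hcPR := hG.cPR
  have hmeas : ∀ N, ∃ μ : ProbabilityMeasure II, N0 ≤ N → OM c0 (n' N) (p1 N) μ := by
    intro N
    by_cases hN : N0 ≤ N
    · obtain ⟨μ, hμ⟩ := exists_OM c0 (H N hN).1.npos (p1 N)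
      exact ⟨μ, fun _ => hμ⟩
    · exact ⟨μ0, fun h => absurd h hN⟩
  choose μN hμN using hmeas
  -- Claim B
  have claimB : Tendsto (fun N => ((c0, μN N) : ℝ × ProbabilityMeasure II)) atTop
      (𝓝 (c0, μ0)) := by
    refine Filter.Tendsto.prodMk_nhds tendsto_const_nhds ?_
    refine OM.tendsto (cs := fun _ => c0) (ps := p1) (ns := n') (c := c0) (p := p0) (n := n)
      ?_ hOM ?_
    · filter_upwards [eventually_ge_atTop N0] with N hN
      exact hμN N hN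
    · intro φ hφ
      rw [Metric.tendsto_atTop]
      intro ε hε
      obtain ⟨N1, hN1⟩ := Hφ φ hφ (ε / 2) (half_pos hε)
      refine ⟨max N0 N1, fun N hN => ?_⟩
      rw [Real.dist_eq]
      have := hN1 N ((le_max_right _ _).trans hN) ((le_max_left _ _).trans hN)
      linarith
  -- Claim A
  have claimA : ∀ᶠ N in atTop, ((c0, μN N) : ℝ × ProbabilityMeasure II) ∈
      closure (Et τ ∩ WW ψ) := by
    have hε : 0 < (τ - χ / 2) / 2 := by linarith
    obtain ⟨N1, hN1⟩ := Hχ _ hε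
    filter_upwards [eventually_ge_atTop N0, eventually_ge_atTop N1] with N hN hN'
    obtain ⟨hB, hw1, hw2, -, -, i', y, hy, hiy⟩ := H N hN
    obtain ⟨i, hi⟩ : ∃ i, 0 < ψ (c0, it c0 i (p1 N)) :=
      ⟨jv + i', by rw [it_add, hiy]; exact hjv y hy⟩
    have hexp : Real.log (dv c0 (n' N) (p1 N)) / (n' N) < τ := by
      have := (abs_le.1 (hN1 N hN' hN)).2
      linarith
    have hpar : ∀ j : ℕ, ∃ (c1 q1 : ℝ) (k1 : ℕ), |c1 - c0| < 1 / ((j : ℝ) + 1) ∧
        |q1 - p1 N| < 1 / ((j : ℝ) + 1) ∧ Good c1 q1 (n' N) k1 (w1 N) (w2 N) ((1 + 2) / 2) :=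
      fun j => hG.param hB hw1 hw2 (by positivity)
    choose cs qs ks h1 h2 h3 using hpar
    have hlimc : Tendsto cs atTop (𝓝 c0) := by
      rw [tendsto_iff_dist_tendsto_zero]
      refine squeeze_zero (fun _ => dist_nonneg) (fun j => ?_) tendsto_one_div_add_atTop_nhds_zero_nat
      rw [Real.dist_eq]; exact (h1 j).le
    have hlimq : Tendsto qs atTop (𝓝 (p1 N)) := by
      rw [tendsto_iff_dist_tendsto_zero]
      refine squeeze_zero (fun _ => dist_nonneg) (fun j => ?_) tendsto_one_div_add_atTop_nhds_zero_nat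
      rw [Real.dist_eq]; exact (h2 j).le
    have hlim2 : Tendsto (fun j => (cs j, qs j)) atTop (𝓝 (c0, p1 N)) :=
      Filter.Tendsto.prodMk_nhds hlimc hlimq
    have hmeas2 : ∀ j, ∃ ν : ProbabilityMeasure II, OM (cs j) (n' N) (qs j) ν := fun j =>
      exists_OM _ hB.npos _
    choose ν hν using hmeas2
    have hνlim : Tendsto (fun j => ((cs j, ν j) : ℝ × ProbabilityMeasure II)) atTop
        (𝓝 (c0, μN N)) := by
      refine Filter.Tendsto.prodMk_nhds hlimc ?_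
      refine OM.tendsto (cs := cs) (ps := qs) (ns := fun _ => n' N) (c := c0) (p := p1 N)
        (n := n' N) (Eventually.of_forall hν) (hμN N hN) ?_
      intro φ hφ
      have hc : Continuous fun q : ℝ × ℝ => S q.1 (n' N) φ q.2 / (n' N) :=
        (S_cont2 hφ (n' N)).div_const _
      exact (hc.tendsto (c0, p1 N)).comp hlim2
    refine mem_closure_of_tendsto hνlim ?_
    have hev1 : ∀ᶠ j in atTop, Real.log (dv (cs j) (n' N) (qs j)) / (n' N) < τ := by
      have hc : ContinuousAt (fun q : ℝ × ℝ => Real.log (dv q.1 (n' N) q.2) / (n' N))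
          (c0, p1 N) := by
        refine ContinuousAt.div_const ?_ _
        exact ((dv_cont (n' N)).continuousAt).log hB.dvpos.ne'
      exact (hc.tendsto.comp hlim2).eventually (gt_mem_nhds hexp)
    have hev2 : ∀ᶠ j in atTop, 0 < ψ (cs j, it (cs j) i (qs j)) := by
      have hc : Continuous fun q : ℝ × ℝ => ψ (q.1, it q.1 i q.2) :=
        hψc.comp (continuous_fst.prodMk (it_cont i))
      exact ((hc.tendsto (c0, p1 N)).comp hlim2).eventually (lt_mem_nhds hi)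
    filter_upwards [hev1, hev2] with j a1 a2
    exact ⟨⟨qs j, n' N, ks j, w1 N, w2 N, (1 + 2) / 2, h3 j, hν j, a1⟩,
      WW_of hψc hψ0 (h3 j).br (h3 j).cPR (hν j) a2⟩
  have := mem_closure_of_tendsto claimB claimA
  rwa [closure_closure] at this


theorem E_sub_gen {ψ : ℝ × ℝ → ℝ} (hψc : Continuous ψ) (hψ0 : ∀ q, 0 ≤ ψ q) {r ε : ℝ} (hε : 0 < ε)
    (hbr : ∀ c : ℝ, c ∈ PR → c < r → HasBranch c fun t => 0 < ψ (c, t))
    {x : ℝ × ProbabilityMeasure II} (hx : x ∈ E) (hxr : x.1 < r) :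
    x ∈ closure (Et ε ∩ WW ψ) := by
  have h1 := E_sub_Et hε hx
  have ho : IsOpen {y : ℝ × ProbabilityMeasure II | y.1 < r} :=
    isOpen_lt continuous_fst continuous_const
  have h2 : x ∈ closure ({y : ℝ × ProbabilityMeasure II | y.1 < r} ∩ Et ε) :=
    ho.inter_closure ⟨hxr, h1⟩
  refine closure_minimal (fun y hy => ?_) isClosed_closure h2
  obtain ⟨hyr, hyE⟩ := hy
  have hyPR : y.1 ∈ PR := (E_sub_CC (Et_sub _ hyE)).1
  exact step_gen hψc hψ0 hyE (hbr y.1 hyPR hyr) (by linarith)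

/-- local generic points in countably many open sets -/
theorem exists_gen_in {ι : Type} [Countable ι] (O : ι → Set (ℝ × ProbabilityMeasure II))
    (hO : ∀ j, IsOpen (O j)) (hE : ∀ j, E ⊆ closure (E ∩ O j)) {c0 p0 : ℝ}
    (hG0 : Good c0 p0 n k x1 x2 κ) {U : Set ℝ} (hU : IsOpen U) (hc0 : c0 ∈ U) :
    ∃ (c : ℝ) (μ : ProbabilityMeasure II), c ∈ U ∧ Gen c μ ∧
      ∀ j, ((c, μ) : ℝ × ProbabilityMeasure II) ∈ O j := by
  set X : Set (ℝ × ProbabilityMeasure II) := closure E with hX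
  have hXCC : X ⊆ CC := closure_minimal E_sub_CC CC_closed
  have hXcomp : IsCompact X := by
    refine IsCompact.of_isClosed_subset (s := PR ×ˢ univ) (isCompact_Icc.prod isCompact_univ)
      isClosed_closure fun x hx => ⟨(hXCC hx).1, mem_univ _⟩
  have : CompactSpace ↥X := isCompact_iff_compactSpace.1 hXcomp
  let φs := TopologicalSpace.denseSeq C(II, ℝ)
  let W : ((ℕ × ℕ) × List Bool) ⊕ ι → Set (ℝ × ProbabilityMeasure II) := fun q =>
    match q with
    | Sum.inl q => W1 (φs q.1.1) (1 / ((q.1.2 : ℝ) + 1)) ∩ W2 (1 / ((q.1.2 : ℝ) + 1)) ∩ W3 q.2 ∩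
      W4 (φs q.1.1) (1 / ((q.1.2 : ℝ) + 1))
    | Sum.inr j => O j
  have hWo : ∀ q, IsOpen (W q) := by
    rintro (q | j)
    · exact (((W1_open _ _).inter (W2_open _)).inter (W3_open _)).inter (W4_open _ _)
    · exact hO j
  have hWd : ∀ q, X ⊆ closure (X ∩ W q) := by
    rintro (q | j)
    · have hε : (0 : ℝ) < 1 / ((q.1.2 : ℝ) + 1) := by positivity
      refine closure_minimal ((E_sub_EtW hε q.2).trans (closure_mono fun x hx => ?_))
        isClosed_closure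
      have hxE : x ∈ E := Et_sub _ hx.1
      exact ⟨subset_closure hxE, ⟨⟨⟨E_sub_W1 _ hε hxE, Et_sub_W2 _ hx.1⟩, hx.2⟩,
        E_sub_W4 _ hε hxE⟩⟩
    · refine closure_minimal ((hE j).trans (closure_mono ?_)) isClosed_closure
      intro y hy
      exact ⟨subset_closure hy.1, hy.2⟩
  let W' : ((ℕ × ℕ) × List Bool) ⊕ ι → Set ↥X := fun q => Subtype.val ⁻¹' (W q)
  have hW'o : ∀ q, IsOpen (W' q) := fun q => (hWo q).preimage continuous_subtype_val
  have hW'd : ∀ q, Dense (W' q) := by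
    intro q
    rw [Subtype.dense_iff]
    intro x hx
    have : Subtype.val '' (W' q) = X ∩ W q := by
      rw [Subtype.image_preimage_coe]
    rw [this]
    exact hWd q hx
  have hdense := dense_iInter_of_isOpen hW'o hW'd
  obtain ⟨μ, hμ⟩ := exists_OM c0 hG0.br.npos p0
  let V : Set ↥X := {x | x.1.1 ∈ U}
  have hV : IsOpen V := hU.preimage (continuous_fst.comp continuous_subtype_val)
  have hVne : V.Nonempty :=
    ⟨⟨(c0, μ), subset_closure ⟨p0, n, k, x1, x2, κ, hG0, hμ⟩⟩, hc0⟩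
  obtain ⟨x, hx, hxV⟩ := hdense.exists_mem_open hV hVne
  rw [mem_iInter] at hx
  refine ⟨x.1.1, x.1.2, hxV, ⟨hXCC x.2, fun i j => ?_, fun j => ?_, fun v => ?_,
    fun i j => ?_⟩, fun j => hx (Sum.inr j)⟩
  · exact (hx (Sum.inl ((i, j), []))).1.1.1
  · exact (hx (Sum.inl ((0, j), []))).1.1.2
  · exact (hx (Sum.inl ((0, 0), v))).1.2
  · exact (hx (Sum.inl ((i, j), []))).2

end Pool.Agent.H99.NM
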