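import Mathlib
import Pool.Agent.H99.NM.Visit

/-! # Long inverse branches near the parameter `-2` -/

set_option autoImplicit false

open Filter Topology Set MeasureTheory

namespace Pool.Agent.H99.NM

open Pool.Agent.W748.NM

variable {c : ℝ}

/-- bounds for preimages of `AB` -/
noncomputable def AQ : ℕ → ℝ
  | 0 => 31 / 20
  | n + 1 => Real.sqrt (AQ n + 2)

theorem AQ_spec (n : ℕ) : 0 < AQ n ∧ AQ n < 2 := by
  induction n with
  | zero => constructor <;> norm_num [AQ]
  | succ n ih =>
    obtain ⟨h1, h2⟩ := ih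
    refine ⟨Real.sqrt_pos.2 (by linarith), ?_⟩
    rw [AQ]
    apply Real.sqrt_lt' (by norm_num) |>.2
    linarith

theorem AQ_mono : Monotone AQ := by
  refine monotone_nat_of_le_succ fun n => ?_
  obtain ⟨h1, h2⟩ := AQ_spec n
  rw [AQ]
  apply Real.le_sqrt_of_sq_le
  nlinarith

/-- the gap for words of length at most `N` -/
noncomputable def gp' (N : ℕ) : ℝ := (2 - AQ N) / 2

theorem gp'_pos (N : ℕ) : 0 < gp' N := by
  have := (AQ_spec N).2
  unfold gp'; linarith

/-- the size of the gap around the critical point -/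
noncomputable def et (N : ℕ) : ℝ := Real.sqrt (gp' N) / 2

theorem et_pos (N : ℕ) : 0 < et N := by
  have := Real.sqrt_pos.2 (gp'_pos N)
  unfold et; linarith

/-- inverse branches of words -/
noncomputable def hw (c : ℝ) : List Bool → ℝ → ℝ
  | [], y => y
  | s :: v, y => sg s * Real.sqrt (hw c v y - c)

theorem abs_sg (s : Bool) : |sg s| = 1 := by cases s <;> simp [sg]

theorem sg_sq (s : Bool) : sg s * sg s = 1 := by cases s <;> simp [sg]

theorem hw_cont (c : ℝ) (v : List Bool) : Continuous (hw c v) := by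
  induction v with
  | nil => exact continuous_id
  | cons s v ih =>
    change Continuous fun y => sg s * Real.sqrt (hw c v y - c)
    exact continuous_const.mul (Real.continuous_sqrt.comp (ih.sub continuous_const))

theorem hw_bound {N : ℕ} (hc1 : -2 ≤ c) (hc2 : c ≤ -2 + gp' N) {y : ℝ} (hy : y ∈ AB) (v : List Bool)
    (hv : v.length ≤ N) : |hw c v y| ≤ AQ v.length ∧ gp' N ≤ hw c v y - c := by
  have hlow : ∀ m ≤ N, gp' N ≤ - AQ m - c := by
    intro m hm
    have := AQ_mono hm
    unfold gp' at hc2 ⊢
    linarith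
  induction v with
  | nil =>
    have h1 : |hw c [] y| ≤ AQ 0 := by
      simp only [hw, AQ]
      exact abs_le.2 hy
    refine ⟨h1, ?_⟩
    have h2 := hlow 0 (Nat.zero_le _)
    have h3 := (abs_le.1 h1).1
    linarith
  | cons s v ih =>
    have hv' : v.length ≤ N := by simp only [List.length_cons] at hv; omega
    obtain ⟨i1, i2⟩ := ih hv'
    have hg := gp'_pos N
    have h1 : |hw c (s :: v) y| ≤ AQ (v.length + 1) := by
      rw [hw, abs_mul, abs_sg, one_mul, abs_of_nonneg (Real.sqrt_nonneg _), AQ]
      apply Real.sqrt_le_sqrt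
      have := (abs_le.1 i1).2
      linarith
    refine ⟨h1, ?_⟩
    have h2 := hlow (v.length + 1) (by simpa using hv)
    have h3 := (abs_le.1 h1).1
    linarith

theorem it_hw {N : ℕ} (hc1 : -2 ≤ c) (hc2 : c ≤ -2 + gp' N) {y : ℝ} (hy : y ∈ AB) (v : List Bool)
    (hv : v.length ≤ N) : it c v.length (hw c v y) = y := by
  induction v with
  | nil => rfl
  | cons s v ih =>
    have hv' : v.length ≤ N := by simp only [List.length_cons] at hv; omega
    have h1 := (hw_bound hc1 hc2 hy v hv').2
    have hg := gp'_pos N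
    rw [List.length_cons, it_add, it_one, hw]
    have e : (sg s * Real.sqrt (hw c v y - c)) ^ 2 + c = hw c v y := by
      rw [mul_pow, Real.sq_sqrt (by linarith), sq, sg_sq]
      ring
    rw [e, ih hv']

theorem hw_sg {N : ℕ} (hc1 : -2 ≤ c) (hc2 : c ≤ -2 + gp' N) {y : ℝ} (hy : y ∈ AB) (s : Bool)
    (v : List Bool) (hv : v.length ≤ N) : et N < sg s * hw c (s :: v) y := by
  have h1 := (hw_bound hc1 hc2 hy v hv).2
  have hg := gp'_pos N
  rw [hw, ← mul_assoc, sg_sq, one_mul, et]
  have h2 : Real.sqrt (gp' N) ≤ Real.sqrt (hw c v y - c) := Real.sqrt_le_sqrt h1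
  have h3 := Real.sqrt_pos.2 hg
  linarith

theorem dv_hw {N : ℕ} (hc1 : -2 ≤ c) (hc2 : c ≤ -2 + gp' N) {y : ℝ} (hy : y ∈ AB) (v : List Bool)
    (hv : v.length ≤ N) : dv c v.length (hw c v y) ≠ 0 := by
  induction v with
  | nil => simp [dv_zero]
  | cons s v ih =>
    have hv' : v.length ≤ N := by simp only [List.length_cons] at hv; omega
    have h1 := (hw_bound hc1 hc2 hy v hv').2
    have hg := gp'_pos N
    have e : (hw c (s :: v) y) ^ 2 + c = hw c v y := by
      rw [hw, mul_pow, Real.sq_sqrt (by linarith), sq, sg_sq]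
      ring
    rw [List.length_cons, dv_succ', e]
    refine mul_ne_zero (mul_ne_zero two_ne_zero ?_) (ih hv')
    intro h0
    have h2 := hw_sg hc1 hc2 hy s v hv'
    rw [h0, mul_zero] at h2
    linarith [et_pos N]

/-- bump function of a word -/
noncomputable def ps (η c : ℝ) : List Bool → ℝ → ℝ
  | [], _ => 1
  | s :: v, x => max 0 (sg s * x - η) * ps η c v (it c 1 x)

theorem ps_nonneg (η c : ℝ) (v : List Bool) (x : ℝ) : 0 ≤ ps η c v x := by
  induction v generalizing x with
  | nil => simp [ps]
  | cons s v ih =>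
    rw [ps]
    exact mul_nonneg (le_max_left _ _) (ih _)

theorem ps_cont (η : ℝ) (v : List Bool) : Continuous fun q : ℝ × ℝ => ps η q.1 v q.2 := by
  induction v with
  | nil => simp only [ps]; exact continuous_const
  | cons s v ih =>
    simp only [ps]
    refine Continuous.mul (by fun_prop) ?_
    exact ih.comp (continuous_fst.prodMk (it_cont 1))

theorem ps_itin {η : ℝ} (v : List Bool) {x : ℝ} (h : 0 < ps η c v x) :
    ∀ (t : ℕ) (ht : t < v.length), η < sg v[t] * it c t x := by
  induction v generalizing x with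
  | nil => intro t ht; simp at ht
  | cons s v ih =>
    rw [ps] at h
    have h1 : 0 < ps η c v (it c 1 x) := by
      refine lt_of_le_of_ne (ps_nonneg _ _ _ _) fun h' => ?_
      rw [← h', mul_zero] at h
      exact lt_irrefl _ h
    have h2 : 0 < max 0 (sg s * x - η) := by
      refine lt_of_le_of_ne (le_max_left _ _) fun h' => ?_
      rw [← h', zero_mul] at h
      exact lt_irrefl _ h
    intro t ht
    cases t with
    | zero =>
      simp only [List.getElem_cons_zero, it_zero]
      rcases lt_max_iff.1 h2 with h | h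
      · exact absurd h (lt_irrefl _)
      · linarith
    | succ t =>
      have ht' : t < v.length := by simpa using ht
      have := ih h1 t ht'
      rw [← it_add] at this
      simpa using this

theorem ps_hw {N : ℕ} (hc1 : -2 ≤ c) (hc2 : c ≤ -2 + gp' N) {y : ℝ} (hy : y ∈ AB) (v : List Bool)
    (hv : v.length ≤ N) : 0 < ps (et N) c v (hw c v y) := by
  induction v with
  | nil => simp [ps]
  | cons s v ih =>
    have hv' : v.length ≤ N := by simp only [List.length_cons] at hv; omega
    have h1 := (hw_bound hc1 hc2 hy v hv').2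
    have hg := gp'_pos N
    have e : it c 1 (hw c (s :: v) y) = hw c v y := by
      rw [it_one, hw, mul_pow, Real.sq_sqrt (by linarith), sq, sg_sq]
      ring
    rw [ps, e]
    refine mul_pos (lt_max_of_lt_right ?_) (ih hv')
    linarith [hw_sg hc1 hc2 hy s v hv']

/-! ### Blocks -/

/-- the alphabet: words of length `k + 2` whose second letter is negative -/
abbrev BB (k : ℕ) : Type := Bool × (Fin k → Bool)

/-- the word of a block -/
def blk {k : ℕ} (b : BB k) : List Bool := b.1 :: false :: List.ofFn b.2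

theorem blk_length {k : ℕ} (b : BB k) : (blk b).length = k + 2 := by simp [blk]

theorem blk_inj {k : ℕ} : Function.Injective (blk (k := k)) := by
  intro b b' h
  simp only [blk, List.cons.injEq, true_and] at h
  exact Prod.ext h.1 (List.ofFn_injective h.2)

theorem hw_blk {k : ℕ} (hc1 : -2 ≤ c) (hc2 : c ≤ -2 + gp' (k + 2)) {y : ℝ} (hy : y ∈ AB)
    (b : BB k) : hw c (blk b) y ∈ AA := by
  have hlen : (List.ofFn b.2).length ≤ k + 2 := by simp
  have hlen' : (false :: List.ofFn b.2).length ≤ k + 2 := by simp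
  have h1 := (hw_bound hc1 hc2 hy _ hlen').2
  have hg := gp'_pos (k + 2)
  have h3 : hw c (false :: List.ofFn b.2) y ≤ 0 := by
    rw [hw]
    have := Real.sqrt_nonneg (hw c (List.ofFn b.2) y - c)
    simp only [sg, Bool.false_eq_true, if_false]
    linarith
  have h4 : Real.sqrt (hw c (false :: List.ofFn b.2) y - c) ≤ 3 / 2 := by
    apply Real.sqrt_le_iff.2
    constructor
    · norm_num
    · linarith
  have h5 : |hw c (blk b) y| ≤ 3 / 2 := by
    rw [blk, hw, abs_mul, abs_sg, one_mul, abs_of_nonneg (Real.sqrt_nonneg _)]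
    exact h4
  exact abs_le.1 h5

/-- inverse branches of words of blocks -/
noncomputable def hB {k : ℕ} (c : ℝ) : List (BB k) → ℝ → ℝ
  | [], y => y
  | b :: v, y => hw c (blk b) (hB c v y)

/-- bump functions of words of blocks -/
noncomputable def pB {k : ℕ} (η c : ℝ) : List (BB k) → ℝ → ℝ
  | [], _ => 1
  | b :: v, x => ps η c (blk b) x * pB η c v (it c (k + 2) x)

variable {k : ℕ}

theorem pB_nonneg (η c : ℝ) (v : List (BB k)) (x : ℝ) : 0 ≤ pB η c v x := by
  induction v generalizing x with
  | nil => simp [pB]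
  | cons s v ih =>
    rw [pB]
    exact mul_nonneg (ps_nonneg _ _ _ _) (ih _)

theorem pB_cont (η : ℝ) (v : List (BB k)) : Continuous fun q : ℝ × ℝ => pB η q.1 v q.2 := by
  induction v with
  | nil => simp only [pB]; exact continuous_const
  | cons s v ih =>
    simp only [pB]
    refine Continuous.mul (ps_cont _ _) ?_
    exact ih.comp (continuous_fst.prodMk (it_cont (k + 2)))

theorem pB_itin {η : ℝ} (v : List (BB k)) {x : ℝ} (h : 0 < pB η c v x) :
    ∀ (j : ℕ) (hj : j < v.length) (t : ℕ) (ht : t < (blk v[j]).length),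
      η < sg (blk v[j])[t] * it c ((k + 2) * j + t) x := by
  induction v generalizing x with
  | nil => intro j hj; simp at hj
  | cons s v ih =>
    rw [pB] at h
    have h1 : 0 < pB η c v (it c (k + 2) x) := by
      refine lt_of_le_of_ne (pB_nonneg _ _ _ _) fun h' => ?_
      rw [← h', mul_zero] at h
      exact lt_irrefl _ h
    have h2 : 0 < ps η c (blk s) x := by
      refine lt_of_le_of_ne (ps_nonneg _ _ _ _) fun h' => ?_
      rw [← h', zero_mul] at h
      exact lt_irrefl _ h
    intro j hj t ht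
    cases j with
    | zero =>
      have := ps_itin (blk s) h2 t (by simpa using ht)
      simpa using this
    | succ j =>
      have hj' : j < v.length := by simpa using hj
      have := ih h1 j hj' t (by simpa using ht)
      rw [← it_add] at this
      have e : (k + 2) * (j + 1) + t = (k + 2) * j + t + (k + 2) := by ring
      rw [e]
      simpa using this

theorem hB_spec (hc1 : -2 ≤ c) (hc2 : c ≤ -2 + gp' (k + 2)) (v : List (BB k)) :
    Continuous (hB c v) ∧ ∀ y ∈ AB, hB c v y ∈ AB ∧ it c ((k + 2) * v.length) (hB c v y) = y ∧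
      dv c ((k + 2) * v.length) (hB c v y) ≠ 0 ∧ 0 < pB (et (k + 2)) c v (hB c v y) := by
  induction v with
  | nil => exact ⟨continuous_id, fun y hy => ⟨hy, by simp [hB], by simp [dv_zero], by simp [pB]⟩⟩
  | cons b v ih =>
    obtain ⟨i1, i2⟩ := ih
    refine ⟨(hw_cont c (blk b)).comp i1, fun y hy => ?_⟩
    obtain ⟨j1, j2, j3, j4⟩ := i2 y hy
    have hl : (blk b).length ≤ k + 2 := (blk_length b).le
    have e1 := it_hw hc1 hc2 j1 (blk b) hl
    rw [blk_length] at e1
    have e2 := dv_hw hc1 hc2 j1 (blk b) hl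
    rw [blk_length] at e2
    have e3 : (k + 2) * (b :: v).length = (k + 2) * v.length + (k + 2) := by
      rw [List.length_cons]; ring
    refine ⟨AA_sub (hw_blk hc1 hc2 j1 b), ?_, ?_, ?_⟩
    · rw [e3, it_add, hB, e1, j2]
    · rw [e3, dv_add, hB, e1]
      exact mul_ne_zero e2 j3
    · rw [pB, hB, e1]
      exact mul_pos (ps_hw hc1 hc2 j1 (blk b) hl) j4

theorem hB_branch (hc1 : -2 ≤ c) (hc2 : c ≤ -2 + gp' (k + 2)) (v : List (BB k)) :
    HasBranch c fun t => 0 < pB (et (k + 2)) c v t := by
  obtain ⟨h1, h2⟩ := hB_spec hc1 hc2 v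
  exact ⟨hB c v, (k + 2) * v.length, h1.continuousOn, fun y hy => (h2 y hy).1,
    fun y hy => (h2 y hy).2.1, fun y hy => (h2 y hy).2.2.1, fun y hy => (h2 y hy).2.2.2⟩

end Pool.Agent.H99.NM
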