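import Mathlib
import Pool.Agent.H99.NM.Many

/-! # Good parameters accumulate at `-2` -/

set_option autoImplicit false

open Filter Topology Set MeasureTheory

namespace Pool.Agent.H99.NM

open Pool.Agent.W748.NM

variable {c : ℝ}

/-- the critical orbit comes down below the period two point -/
theorem exists_below (h1 : -2 < c) (h2 : c < -19 / 10) : ∃ k : ℕ, 1 ≤ k ∧ it c k c ≤ qq c := by
  by_contra hcon
  push Not at hcon
  have hq := (qq_spec (c := c) ⟨h1.le, h2.le⟩).1
  set a := c ^ 2 + c with ha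
  set η := -(a ^ 2 - a + c) with hη
  have hη0 : 0 < η := by
    have e : a ^ 2 - a + c = c ^ 3 * (c + 2) := by rw [ha]; ring
    rw [hη, e]
    have hc3 : c ^ 3 < 0 := by
      have : 0 < (-c) ^ 3 := by apply pow_pos; linarith
      nlinarith
    nlinarith
  have ha1 : 1 / 2 < a := by
    have := hcon 1 le_rfl
    rw [it_one] at this
    rw [ha]
    linarith
  have key : ∀ k : ℕ, it c (k + 1) c ≤ a - k * η := by
    intro k
    induction k with
    | zero => simp only [zero_add, Nat.cast_zero, zero_mul, sub_zero, it_one]; exact le_rfl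
    | succ k ih =>
      have hx := hcon (k + 1) (by omega)
      rw [it_succ]
      set x := it c (k + 1) c with hxdef
      have hx0 : 1 / 2 < x := by linarith
      have hxa : x ≤ a := by
        have : 0 ≤ (k : ℝ) * η := by positivity
        linarith
      have h3 : x ^ 2 - x ≤ a ^ 2 - a := by nlinarith
      push_cast
      nlinarith
  obtain ⟨k, hk⟩ := exists_nat_gt (a / η)
  rw [div_lt_iff₀ hη0] at hk
  have h3 := key k
  have h4 := hcon (k + 1) (by omega)
  linarith

theorem it_neg_two (k : ℕ) : it (-2) (k + 1) (-2) = 2 := by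
  induction k with
  | zero => rw [zero_add, it_one]; norm_num
  | succ k ih => rw [it_succ, ih]; norm_num

theorem exists_param_near {δ : ℝ} (hδ : 0 < δ) :
    ∃ (c : ℝ) (k : ℕ), -2 < c ∧ c < -2 + δ ∧ c < -19 / 10 ∧ it c k c = qq c := by
  set c' : ℝ := -2 + min δ (1 / 20) / 2 with hc'
  have hm0 : 0 < min δ (1 / 20) := lt_min hδ (by norm_num)
  have hmδ : min δ (1 / 20) ≤ δ := min_le_left _ _
  have hm1 : min δ (1 / 20) ≤ 1 / 20 := min_le_right _ _
  have a1 : -2 < c' := by rw [hc']; linarith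
  have a2 : c' < -19 / 10 := by rw [hc']; linarith
  have a3 : c' < -2 + δ := by rw [hc']; linarith
  obtain ⟨k, hk1, hk⟩ := exists_below a1 a2
  obtain ⟨j, rfl⟩ : ∃ j, k = j + 1 := ⟨k - 1, by omega⟩
  have hcont : ContinuousOn (fun c : ℝ => it c (j + 1) c - qq c) (Icc (-2) c') := by
    apply Continuous.continuousOn
    apply Continuous.sub
    · exact (it_cont (j + 1)).comp (continuous_id.prodMk continuous_id)
    · unfold qq; fun_prop
  have h1 : 0 < it (-2) (j + 1) (-2) - qq (-2) := by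
    have := (qq_spec (c := -2) ⟨le_rfl, by norm_num⟩).2.1
    rw [it_neg_two]; linarith
  have h2 : it c' (j + 1) c' - qq c' ≤ 0 := by linarith
  obtain ⟨c, hc, e⟩ := intermediate_value_Icc' a1.le hcont
    (show (0 : ℝ) ∈ Icc _ _ from ⟨h2, h1.le⟩)
  have e' : it c (j + 1) c - qq c = 0 := e
  refine ⟨c, j + 1, ?_, by linarith [hc.2], by linarith [hc.2], by linarith⟩
  rcases hc.1.eq_or_lt with h | h
  · rw [← h] at e'; linarith
  · exact h

theorem good_of {k : ℕ} (hc1 : -2 < c) (hc2 : c < -19 / 10) (hc3 : it c k c = qq c) :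
    ∃ (p : ℝ) (n k : ℕ) (x1 x2 κ : ℝ), Good c p n k x1 x2 κ := by
  have hc : c ∈ PR := ⟨hc1.le, hc2.le⟩
  obtain ⟨q1, q2, q3, q4⟩ := qq_spec hc
  set q := qq c with hq
  have hqV : q ∈ Icc (1 / 5 : ℝ) (6 / 5) := ⟨by linarith, by linarith⟩
  have hgV : ∀ y ∈ AB, gp c y ∈ Icc (1 / 5 : ℝ) (6 / 5) := fun y hy =>
    ⟨(gp_spec hc hy).1.le, (gp_spec hc hy).2.1.le⟩
  have hm : (-(31 / 20) : ℝ) ∈ AB := ⟨le_rfl, by norm_num⟩
  have hp : (31 / 20 : ℝ) ∈ AB := ⟨by norm_num, le_rfl⟩
  set am := gp c (-(31 / 20)) with ham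
  set ap := gp c (31 / 20) with hap
  have em : it c 2 am = -(31 / 20) := it_two_gp hc hm
  have ep : it c 2 ap = 31 / 20 := it_two_gp hc hp
  have hamV := hgV _ hm
  have hapV := hgV _ hp
  rw [← ham] at hamV
  rw [← hap] at hapV
  have hamAB : am ∈ AB := ⟨by linarith [hamV.1], by linarith [hamV.2]⟩
  have hapAB : ap ∈ AB := ⟨by linarith [hapV.1], by linarith [hapV.2]⟩
  have l1 : ap < q := V_lt hc hapV hqV (by rw [ep, q3]; linarith)
  have l2 : q < am := V_lt hc hqV hamV (by rw [em, q3]; linarith)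
  set x1 := gp c am with hx1
  set x2 := gp c ap with hx2
  have e1 : it c 2 x1 = am := it_two_gp hc hamAB
  have e2 : it c 2 x2 = ap := it_two_gp hc hapAB
  have hx1V := hgV _ hamAB
  have hx2V := hgV _ hapAB
  rw [← hx1] at hx1V
  rw [← hx2] at hx2V
  have l3 : x1 < q := V_lt hc hx1V hqV (by rw [e1, q3]; exact l2)
  have l4 : q < x2 := V_lt hc hqV hx2V (by rw [e2, q3]; exact l1)
  have e14 : it c 4 x1 = -(31 / 20) := by
    rw [show 4 = 2 + 2 from rfl, it_add, e1, em]
  have e24 : it c 4 x2 = 31 / 20 := by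
    rw [show 4 = 2 + 2 from rfl, it_add, e2, ep]
  have hbr : Br c 4 x1 x2 (49 / 25) q := by
    refine ⟨by linarith [hx1V.1], l3, l4, by linarith [hx2V.2], by norm_num, fun x hx => ?_,
      by rw [e14]; norm_num, by rw [e24]; norm_num, ?_⟩
    · have hxV : x ∈ Icc (1 / 5 : ℝ) (6 / 5) := ⟨hx1V.1.trans hx.1, hx.2.trans hx2V.2⟩
      have hxm : it c 2 x ≤ am := by
        have := expand_V hc hx1V hxV hx.1
        rw [e1] at this
        linarith [hx.1]
      have hxp : ap ≤ it c 2 x := by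
        have := expand_V hc hxV hx2V hx.2
        rw [e2] at this
        linarith [hx.2]
      have hxV2 : it c 2 x ∈ Icc (1 / 5 : ℝ) (6 / 5) := ⟨hapV.1.trans hxp, hxm.trans hamV.2⟩
      have d1 := dv_V hc hxV
      have d2 := dv_V hc hxV2
      rw [show 4 = 2 + 2 from rfl, dv_add]
      nlinarith
    · rw [show 4 = 2 + 2 from rfl, it_add, q3, q3]
  refine ⟨q, 4, k, x1, x2, 49 / 25, ⟨hc1, hc2⟩, hbr, hc3, fun s hs => ?_⟩
  rcases hs with e | e
  · have hgb : ∀ y ∈ AB, gb c false y ∈ AB := fun y hy => AA_sub (gb_mem false hc hy)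
    refine ⟨2 + 2, fun y => gb c true (gb c false y),
      ((gb_cont c true).comp (gb_cont c false)).continuousOn, fun y hy => gb_mem true hc (hgb y hy),
      fun y hy => ?_, fun y hy => ?_, fun y hy => ?_⟩
    · rw [e, one_mul, sub_pos]
      apply V_lt hc hqV
      · have : gb c true (gb c false y) = gp c (gb c false y) := by simp [gb]
        change gb c true (gb c false y) ∈ _
        rw [this]
        exact hgV _ (hgb y hy)
      · rw [it_two_gb true hc (hgb y hy), q3]
        have := (gp_spec hc hy).1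
        simp only [gb, Bool.false_eq_true, if_false]
        linarith
    · rw [it_add, it_two_gb true hc (hgb y hy), it_two_gb false hc hy]
    · rw [dv_add, it_two_gb true hc (hgb y hy)]
      exact mul_ne_zero (dv_two_gb true hc (hgb y hy)) (dv_two_gb false hc hy)
  · refine ⟨2, gb c false, (gb_cont c false).continuousOn, fun y hy => gb_mem false hc hy,
      fun y hy => ?_, fun y hy => it_two_gb false hc hy, fun y hy => dv_two_gb false hc hy⟩
    have := (gp_spec hc hy).1
    rw [e]
    simp only [gb, Bool.false_eq_true, if_false]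
    linarith

/-- the parameters of generic pairs are uncountable in every right neighbourhood of `-2` -/
theorem gen_uncountable {δ : ℝ} (hδ : 0 < δ) {P : Set ℝ}
    (hP : ∀ c : ℝ, -2 < c → c < -2 + δ → c < -19 / 10 →
      (∃ μ : ProbabilityMeasure II, Gen c μ) → c ∈ P) : ¬ P.Countable := by
  intro hcount
  obtain ⟨c0, k0, b1, b2, b3, b4⟩ := exists_param_near hδ
  obtain ⟨p, n, k, x1, x2, κ, hG⟩ := good_of b1 b3 b4
  obtain ⟨c, μ, hcU, hcP, hgen⟩ := exists_gen_avoid hG
    (U := Ioo (-2) (min (-2 + δ) (-19 / 10))) isOpen_Ioo ⟨b1, lt_min b2 b3⟩ hcount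
  exact hcP (hP c hcU.1 (hcU.2.trans_le (min_le_left _ _)) (hcU.2.trans_le (min_le_right _ _))
    ⟨μ, hgen⟩)

end Pool.Agent.H99.NM
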