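import Mathlib
import Pool.Agent.H99.NM.Near

/-! # The full two-shift inside the support -/

set_option autoImplicit false

open Filter Topology Set MeasureTheory

namespace Pool.Agent.H99.NM

open Pool.Agent.W748.NM

variable {c : ℝ} {μ : ProbabilityMeasure II}

/-- the point `x` has the itinerary `w` under the second iterate -/
def Itin (c : ℝ) (w : ℕ → Bool) (x : ℝ) : Prop :=
  ∀ t, 1 / 5 ≤ sg (w t) * it c (2 * t) x ∧ sg (w t) * it c (2 * t) x ≤ 6 / 5

theorem exists_itin (h : Gen c μ) (w : ℕ → Bool) : ∃ x : II, x ∈ K0 μ ∧ Itin c w x := by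
  let C : ℕ → Set II := fun L => {x | x ∈ K0 μ ∧ ∀ t < L,
    1 / 5 ≤ sg (w t) * it c (2 * t) x ∧ sg (w t) * it c (2 * t) x ≤ 6 / 5}
  have hclosed : ∀ L, IsClosed (C L) := by
    intro L
    refine (K0_closed μ).inter ?_
    have e : {x : II | ∀ t < L, 1 / 5 ≤ sg (w t) * it c (2 * t) x ∧
        sg (w t) * it c (2 * t) x ≤ 6 / 5} = ⋂ t, ⋂ (_ : t < L), {x : II |
        1 / 5 ≤ sg (w t) * it c (2 * t) x ∧ sg (w t) * it c (2 * t) x ≤ 6 / 5} := by
      ext x; simp
    change IsClosed {x : II | ∀ t < L, 1 / 5 ≤ sg (w t) * it c (2 * t) x ∧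
        sg (w t) * it c (2 * t) x ≤ 6 / 5}
    rw [e]
    refine isClosed_iInter fun t => isClosed_iInter fun _ => ?_
    have hc : Continuous fun x : II => sg (w t) * it c (2 * t) x :=
      continuous_const.mul ((it_cont_x c (2 * t)).comp continuous_subtype_val)
    exact (isClosed_le continuous_const hc).inter (isClosed_le hc continuous_const)
  have hne : ∀ L, (C L).Nonempty := by
    intro L
    obtain ⟨x, hx, hpsi⟩ := h.exists_cyl (List.ofFn fun i : Fin L => w i)
    refine ⟨x, hx, fun t ht => ?_⟩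
    have := psi_itin hpsi t (by simpa using ht)
    simp only [List.getElem_ofFn] at this
    exact ⟨this.1.le, this.2.le⟩
  have hmono : ∀ L, C (L + 1) ⊆ C L := fun L x hx =>
    ⟨hx.1, fun t ht => hx.2 t (by omega)⟩
  obtain ⟨x, hx⟩ := IsCompact.nonempty_iInter_of_sequence_nonempty_isCompact_isClosed C hmono hne
    ((hclosed 0).isCompact) hclosed
  rw [mem_iInter] at hx
  exact ⟨x, (hx 0).1, fun t => (hx (t + 1)).2 t (by omega)⟩

theorem expand_sg {s : Bool} {x y : ℝ} (hc : c ∈ PR) (hx : 1 / 5 ≤ sg s * x ∧ sg s * x ≤ 6 / 5)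
    (hy : 1 / 5 ≤ sg s * y ∧ sg s * y ≤ 6 / 5) : 7 / 5 * |x - y| ≤ |it c 2 x - it c 2 y| := by
  have main : ∀ a b : ℝ, a ∈ Icc (1 / 5 : ℝ) (6 / 5) → b ∈ Icc (1 / 5 : ℝ) (6 / 5) →
      7 / 5 * |a - b| ≤ |it c 2 a - it c 2 b| := by
    intro a b ha hb
    rcases le_total a b with hle | hle
    · have h3 := expand_V hc ha hb hle
      rw [abs_of_nonpos (by linarith), abs_of_nonneg (by nlinarith)]
      linarith
    · have h3 := expand_V hc hb ha hle
      rw [abs_of_nonneg (by linarith), abs_of_nonpos (by nlinarith)]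
      linarith
  cases s
  · simp only [sg, Bool.false_eq_true, if_false] at hx hy
    have := main (-x) (-y) ⟨by linarith, by linarith⟩ ⟨by linarith, by linarith⟩
    rw [it_two_neg, it_two_neg] at this
    have e : |(-x) - (-y)| = |x - y| := by
      rw [← abs_neg]; congr 1; ring
    rwa [e] at this
  · simp only [sg, if_true, one_mul] at hx hy
    exact main x y hx hy

theorem itin_close {w w' : ℕ → Bool} {m : ℕ} (hc : c ∈ PR) (hww : ∀ t ≤ m, w t = w' t) {x y : ℝ}
    (hx : Itin c w x) (hy : Itin c w' y) : |x - y| ≤ (5 / 7) ^ m := by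
  have hstep : ∀ t ≤ m, |x - y| ≤ (5 / 7) ^ t * |it c (2 * t) x - it c (2 * t) y| := by
    intro t
    induction t with
    | zero => intro _; simp
    | succ t ih =>
      intro ht
      have ih' := ih (by omega)
      have h1 := hx t
      have h2 := hy t
      rw [← hww t (by omega)] at h2
      have h3 := expand_sg hc h1 h2
      have ex : it c (2 * (t + 1)) x = it c 2 (it c (2 * t) x) := by
        rw [← it_add]; congr 1; ring
      have ey : it c (2 * (t + 1)) y = it c 2 (it c (2 * t) y) := by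
        rw [← it_add]; congr 1; ring
      rw [ex, ey]
      calc |x - y| ≤ (5 / 7) ^ t * |it c (2 * t) x - it c (2 * t) y| := ih'
        _ ≤ (5 / 7) ^ t * (5 / 7 * |it c 2 (it c (2 * t) x) - it c 2 (it c (2 * t) y)|) := by
          apply mul_le_mul_of_nonneg_left _ (by positivity)
          linarith
        _ = _ := by ring
  have h4 := hstep m le_rfl
  have h5 : |it c (2 * m) x - it c (2 * m) y| ≤ 1 := by
    have h1 := hx m
    have h2 := hy m
    rw [← hww m le_rfl] at h2
    revert h1 h2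
    cases w m
    · simp only [sg, Bool.false_eq_true, if_false]
      rintro ⟨a1, a2⟩ ⟨b1, b2⟩
      rw [abs_le]; constructor <;> linarith
    · simp only [sg, if_true, one_mul]
      rintro ⟨a1, a2⟩ ⟨b1, b2⟩
      rw [abs_le]; constructor <;> linarith
  calc _ ≤ _ := h4
    _ ≤ (5 / 7) ^ m * 1 := mul_le_mul_of_nonneg_left h5 (by positivity)
    _ = _ := mul_one _

theorem itin_unique {w : ℕ → Bool} (hc : c ∈ PR) {x y : ℝ} (hx : Itin c w x) (hy : Itin c w y) :
    x = y := by
  have h : ∀ m : ℕ, |x - y| ≤ (5 / 7 : ℝ) ^ m := fun m => itin_close hc (fun _ _ => rfl) hx hy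
  have h2 : |x - y| ≤ 0 :=
    ge_of_tendsto' (tendsto_pow_atTop_nhds_zero_of_lt_one (by norm_num) (by norm_num)) h
  have h3 : |x - y| = 0 := le_antisymm h2 (abs_nonneg _)
  linarith [abs_eq_zero.1 h3]

theorem itin_ne {w w' : ℕ → Bool} {x : ℝ} (hx : Itin c w x) (hy : Itin c w' x) : w = w' := by
  funext t
  by_contra hne
  have h1 := (hx t).1
  have h2 := (hy t).1
  have : sg (w t) = - sg (w' t) := by
    revert hne
    cases w t <;> cases w' t <;> simp [sg]
  rw [this] at h1
  linarith

theorem itin_shift {w : ℕ → Bool} {x : ℝ} (hx : Itin c w x) :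
    Itin c (fun n => w (n + 1)) (it c 2 x) := by
  intro t
  have := hx (t + 1)
  rw [← it_add]
  exact this

/-- the coding of the horseshoe in the support -/
theorem exists_coding (h : Gen c μ) : ∃ e : (ℕ → Bool) → ℝ, Continuous e ∧
    Function.Injective e ∧ (∀ w, ∃ x : II, x ∈ K0 μ ∧ (x : ℝ) = e w) ∧
    ∀ w, it c 2 (e w) = e (fun n => w (n + 1)) := by
  choose z hz hzi using fun w => exists_itin h w
  have hc := h.cPR
  refine ⟨fun w => (z w : ℝ), ?_, ?_, fun w => ⟨z w, hz w, rfl⟩, fun w => ?_⟩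
  · rw [continuous_iff_continuousAt]
    intro w
    rw [ContinuousAt, Metric.tendsto_nhds]
    intro ε hε
    obtain ⟨m, hm⟩ := exists_pow_lt_of_lt_one hε (by norm_num : (5 / 7 : ℝ) < 1)
    have hev : ∀ᶠ w' in 𝓝 w, ∀ t ∈ Finset.range (m + 1), w' t = w t := by
      rw [Filter.eventually_all_finset]
      intro t _
      have h1 : Tendsto (fun w' : ℕ → Bool => w' t) (𝓝 w) (𝓝 (w t)) :=
        (continuous_apply t).continuousAt
      have h2 : ({w t} : Set Bool) ∈ 𝓝 (w t) := (isOpen_discrete _).mem_nhds rfl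
      filter_upwards [h1 h2] with w' hw'
      exact hw'
    filter_upwards [hev] with w' hw'
    rw [Real.dist_eq]
    refine lt_of_le_of_lt (itin_close hc (fun t ht => ?_) (hzi w') (hzi w)) hm
    exact hw' t (Finset.mem_range.2 (by omega))
  · intro w w' e
    have h1 := hzi w
    have h2 := hzi w'
    have e' : (z w : ℝ) = z w' := e
    rw [← e'] at h2
    exact itin_ne h1 h2
  · exact itin_unique hc (itin_shift (hzi w)) (hzi _)

end Pool.Agent.H99.NM
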