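import Mathlib
import Pool.Agent.H99.NM.Blocks
import Pool.Agent.H99.NM.Horse

/-! # Entropy close to `log 2` on the support -/

set_option autoImplicit false

open Filter Topology Set MeasureTheory OnePoint ExpGrowth

namespace Pool.Agent.H99.NM

open Pool.Agent.W748.NM Pool.Agent.W748.NM.Sph

variable {c : ℝ} {μ : ProbabilityMeasure II} {k : ℕ}

/-- the measure charges the word `v` of blocks -/
def VB (k : ℕ) (v : List (BB k)) : Set (ℝ × ProbabilityMeasure II) :=
  WW fun q => pB (et (k + 2)) q.1 v q.2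

theorem exists_block_cyl (hV : ∀ v : List (BB k), ((c, μ) : ℝ × ProbabilityMeasure II) ∈ VB k v)
    (v : List (BB k)) : ∃ x ∈ K0 μ, 0 < pB (et (k + 2)) c v (x : ℝ) := by
  have h1 : 0 < ∫ t : II, pB (et (k + 2)) c v t ∂(μ : Measure II) := hV v
  have hc : Continuous fun t : II => pB (et (k + 2)) c v t :=
    (WW_cont (pB_cont (et (k + 2)) v)).comp (continuous_const.prodMk continuous_id)
  rw [integral_pos_iff_support_of_nonneg (fun t => pB_nonneg _ _ _ _) (integrable_cont hc μ)] at h1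
  by_contra hcon
  push Not at hcon
  have h2 : (Function.support fun t : II => pB (et (k + 2)) c v t) ⊆ (K0 μ)ᶜ := by
    intro t ht hK
    exact ht (le_antisymm (hcon t hK) (pB_nonneg _ _ _ _))
  have h5 := measure_mono_null h2 (K0_ae μ)
  rw [h5] at h1
  exact lt_irrefl _ h1

/-- the entourage -/
def UE (η : ℝ) : Set (OnePoint ℂ × OnePoint ℂ) := {q | |sepf q.1 - sepf q.2| < η}

theorem UE_mem {η : ℝ} (hη : 0 < η) : UE η ∈ @uniformity (OnePoint ℂ) uniformSpaceOfCompactR1 := by
  change UE η ∈ 𝓝ˢ (diagonal (OnePoint ℂ))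
  have ho : IsOpen (UE η) := by
    apply isOpen_lt _ continuous_const
    exact ((sepf_cont.comp continuous_fst).sub (sepf_cont.comp continuous_snd)).abs
  apply ho.mem_nhdsSet.2
  intro q hq
  rw [mem_diagonal_iff] at hq
  simp [UE, hq, hη]

theorem sep_bound' {η : ℝ} (hη : 0 < η) {s : Bool} {x : ℝ} (hx : x ∈ Icc (-2 : ℝ) 2)
    (h : η < sg s * x) : η / 5 < sg s * (x / (1 + x ^ 2)) := by
  obtain ⟨h1, h2⟩ := hx
  rw [← mul_div_assoc, lt_div_iff₀ (by positivity)]
  have h3 : x ^ 2 ≤ 4 := by nlinarith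
  have h4 : η / 5 * (1 + x ^ 2) ≤ η / 5 * 5 :=
    mul_le_mul_of_nonneg_left (by linarith) (by positivity)
  linarith

theorem netMaxB (h : Gen c μ)
    (hV : ∀ v : List (BB k), ((c, μ) : ℝ × ProbabilityMeasure II) ∈ VB k v) (m : ℕ) :
    (((2 ^ (k + 1)) ^ m : ℕ) : ℕ∞) ≤
    Dynamics.netMaxcard (F c) (J '' K0 μ) (UE (et (k + 2) / 5)) ((k + 2) * m) := by
  classical
  have hη := et_pos (k + 2)
  choose x hx hpB using fun w : Fin m → BB k => exists_block_cyl hV (List.ofFn w)
  have hsep : ∀ (w : Fin m → BB k) (j : Fin m) (t : ℕ) (ht : t < (blk (w j)).length),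
      et (k + 2) < sg (blk (w j))[t] * it c ((k + 2) * j + t) (x w) := by
    intro w j t ht
    have := pB_itin _ (hpB w) j (by simp) t (by simpa using ht)
    simpa using this
  have hkey : ∀ w w' : Fin m → BB k, w ≠ w' → ∀ z : OnePoint ℂ,
      (J (x w), z) ∈ Dynamics.dynEntourage (F c) (UE (et (k + 2) / 5)) ((k + 2) * m) →
      (J (x w'), z) ∈ Dynamics.dynEntourage (F c) (UE (et (k + 2) / 5)) ((k + 2) * m) →
      False := by
    intro w w' hne z h1 h2
    obtain ⟨j, hj⟩ := Function.ne_iff.1 hne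
    have hb : blk (w j) ≠ blk (w' j) := fun e => hj (blk_inj e)
    obtain ⟨t, ht, ht', hs⟩ : ∃ (t : ℕ) (ht : t < (blk (w j)).length)
        (ht' : t < (blk (w' j)).length), (blk (w j))[t] ≠ (blk (w' j))[t] := by
      by_contra hcon
      push Not at hcon
      exact hb (List.ext_getElem (by rw [blk_length, blk_length]) hcon)
    rw [Dynamics.mem_dynEntourage] at h1 h2
    have htk : t < k + 2 := by rw [blk_length] at ht; exact ht
    have ht2 : (k + 2) * (j : ℕ) + t < (k + 2) * m := by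
      have h3 : (j : ℕ) + 1 ≤ m := j.2
      have h4 : (k + 2) * ((j : ℕ) + 1) ≤ (k + 2) * m := Nat.mul_le_mul_left _ h3
      have h5 : (k + 2) * ((j : ℕ) + 1) = (k + 2) * (j : ℕ) + (k + 2) := by ring
      omega
    have a1 := h1 _ ht2
    have a2 := h2 _ ht2
    simp only [UE, mem_ofPred_eq] at a1 a2
    have b1 := hsep w j t ht
    have b2 := hsep w' j t ht'
    have e1 : (F c)^[(k + 2) * (j : ℕ) + t] (J (x w)) = R (it c ((k + 2) * j + t) (x w)) :=
      F_iter_R _ _ _
    have e2 : (F c)^[(k + 2) * (j : ℕ) + t] (J (x w')) = R (it c ((k + 2) * j + t) (x w')) :=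
      F_iter_R _ _ _
    rw [e1, sepf_R] at a1
    rw [e2, sepf_R] at a2
    have m1 : it c ((k + 2) * j + t) (x w) ∈ Icc (-2 : ℝ) 2 := by
      rw [← (h.Tn_K0 (hx w) _).2]; exact ((T c)^[(k + 2) * (j : ℕ) + t] (x w)).2
    have m2 : it c ((k + 2) * j + t) (x w') ∈ Icc (-2 : ℝ) 2 := by
      rw [← (h.Tn_K0 (hx w') _).2]; exact ((T c)^[(k + 2) * (j : ℕ) + t] (x w')).2
    have c1 := sep_bound' hη m1 b1
    have c2 := sep_bound' hη m2 b2
    have hs' : sg (blk (w j))[t] = - sg (blk (w' j))[t] := by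
      revert hs
      cases (blk (w j))[t] <;> cases (blk (w' j))[t] <;> simp [sg]
    have hs2 : sg (blk (w' j))[t] = 1 ∨ sg (blk (w' j))[t] = -1 := by
      cases (blk (w' j))[t] <;> simp [sg]
    rw [abs_lt] at a1 a2
    rcases hs2 with e | e
    · rw [hs', e] at c1
      rw [e] at c2
      linarith [a1.1, a1.2, a2.1, a2.2]
    · rw [hs', e] at c1
      rw [e] at c2
      linarith [a1.1, a1.2, a2.1, a2.2]
  have hrefl : ∀ w, (J (x w), J (x w)) ∈
      Dynamics.dynEntourage (F c) (UE (et (k + 2) / 5)) ((k + 2) * m) := by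
    intro w
    rw [Dynamics.mem_dynEntourage]
    intro k _
    have : 0 < et (k + 2) := et_pos _
    simp [UE, hη]
  have hinj : Function.Injective fun w => J (x w) := by
    intro w w' e
    by_contra hne
    refine hkey w w' hne (J (x w)) (hrefl w) ?_
    have e' : J (x w) = J (x w') := e
    rw [← e']; exact hrefl w
  set s : Finset (OnePoint ℂ) := Finset.image (fun w => J (x w)) Finset.univ with hs
  have hcard : s.card = (2 ^ (k + 1)) ^ m := by
    rw [hs, Finset.card_image_of_injective _ hinj, Finset.card_univ]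
    simp [pow_succ, mul_comm]
  have hnet : Dynamics.IsDynNetIn (F c) (J '' K0 μ) (UE (et (k + 2) / 5)) ((k + 2) * m) s := by
    constructor
    · intro z hz
      rw [hs, Finset.mem_coe, Finset.mem_image] at hz
      obtain ⟨w, -, rfl⟩ := hz
      exact ⟨x w, hx w, rfl⟩
    · intro a ha b hb hab
      rw [hs, Finset.mem_coe, Finset.mem_image] at ha hb
      obtain ⟨w, -, rfl⟩ := ha
      obtain ⟨w', -, rfl⟩ := hb
      rw [Function.onFun, Set.disjoint_left]
      intro z hz1 hz2
      have hne : w ≠ w' := fun e => hab (by rw [e])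
      exact hkey w w' hne z hz1 hz2
  have := hnet.card_le_netMaxcard
  rw [hcard] at this
  exact this

theorem log_leB (h : Gen c μ)
    (hV : ∀ v : List (BB k), ((c, μ) : ℝ × ProbabilityMeasure II) ∈ VB k v) :
    ENNReal.log ((2 ^ (k + 1) : ℕ) : ENNReal) ≤
    (k + 2 : ℕ) * Dynamics.netEntropyEntourage (F c) (J '' K0 μ) (UE (et (k + 2) / 5)) := by
  unfold Dynamics.netEntropyEntourage
  have hmono : Monotone fun n : ℕ =>
      ((Dynamics.netMaxcard (F c) (J '' K0 μ) (UE (et (k + 2) / 5)) n : ℕ∞) : ENNReal) :=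
    fun a b hab => ENat.toENNReal_le.2 (Dynamics.netMaxcard_monotone_time _ _ _ hab)
  rw [← hmono.expGrowthSup_comp_mul (by omega : k + 2 ≠ 0), ← expGrowthSup_pow]
  apply expGrowthSup_monotone
  intro m
  have := netMaxB h hV m
  have h2 := ENat.toENNReal_le.2 this
  refine le_trans (le_of_eq ?_) h2
  simp

theorem entropy_geB (h : Gen c μ)
    (hV : ∀ v : List (BB k), ((c, μ) : ℝ × ProbabilityMeasure II) ∈ VB k v) :
    ((Real.log 2 * (k + 1) / (k + 2) : ℝ) : EReal) ≤ topEntropy (F c) (J '' K0 μ) := by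
  have h1 := log_leB h hV
  have h4 : Dynamics.netEntropyEntourage (F c) (J '' K0 μ) (UE (et (k + 2) / 5)) ≤
      topEntropy (F c) (J '' K0 μ) := by
    unfold topEntropy
    let : UniformSpace (OnePoint ℂ) := uniformSpaceOfCompactR1
    exact Dynamics.netEntropyEntourage_le_coverEntropy _ _
      (UE_mem (div_pos (et_pos (k + 2)) (by norm_num)))
  have h2 : ENNReal.log ((2 ^ (k + 1) : ℕ) : ENNReal) = ((Real.log 2 * (k + 1) : ℝ) : EReal) := by
    rw [ENNReal.log_pos_real (by simp) (by simp)]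
    have e : ((2 ^ (k + 1) : ℕ) : ENNReal).toReal = (2 : ℝ) ^ (k + 1) := by simp
    rw [e, Real.log_pow]
    congr 1
    push_cast
    ring
  rw [h2] at h1
  have h3 : ((Real.log 2 * (k + 1) : ℝ) : EReal) ≤ (k + 2 : ℕ) * topEntropy (F c) (J '' K0 μ) :=
    h1.trans (mul_le_mul_of_nonneg_left h4 (by exact_mod_cast Nat.zero_le _))
  have hk : (0 : ℝ) < ((k + 2 : ℕ) : ℝ) := by positivity
  have ek : ((k + 2 : ℕ) : EReal) = (((k + 2 : ℕ) : ℝ) : EReal) := by norm_cast
  generalize topEntropy (F c) (J '' K0 μ) = H at h3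
  rw [ek] at h3
  induction H using EReal.rec with
  | bot =>
    exfalso
    rw [EReal.coe_mul_bot_of_pos hk, le_bot_iff] at h3
    exact EReal.coe_ne_bot _ h3
  | coe r =>
    rw [← EReal.coe_mul, EReal.coe_le_coe_iff] at h3
    rw [EReal.coe_le_coe_iff, div_le_iff₀ (by positivity)]
    push_cast at h3
    linarith
  | top => exact le_top

/-- the parameters of generic pairs which charge all words of blocks are uncountable in every
right neighbourhood of `-2` -/
theorem genB_uncountable (k : ℕ) {δ : ℝ} (hδ : 0 < δ) {P : Set ℝ}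
    (hP : ∀ c : ℝ, -2 < c → c < -2 + δ → ∀ μ : ProbabilityMeasure II, Gen c μ →
      (∀ v : List (BB k), ((c, μ) : ℝ × ProbabilityMeasure II) ∈ VB k v) → c ∈ P) :
    ¬ P.Countable := by
  intro hcount
  have : Countable P := hcount.to_subtype
  have hg := gp'_pos (k + 2)
  obtain ⟨c0, k0, b1, b2, b3, b4⟩ := exists_param_near (lt_min hδ (half_pos hg))
  obtain ⟨p, n, k1, x1, x2, κ, hG⟩ := good_of b1 b3 b4
  have b5 : c0 < -2 + δ := by
    have := min_le_left δ (gp' (k + 2) / 2); linarith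
  have b6 : c0 < -2 + gp' (k + 2) / 2 := by
    have := min_le_right δ (gp' (k + 2) / 2); linarith
  let O : P ⊕ List (BB k) → Set (ℝ × ProbabilityMeasure II) := fun q =>
    match q with
    | Sum.inl d => {x | x.1 ≠ (d : ℝ)}
    | Sum.inr v => {x | -2 + gp' (k + 2) / 2 < x.1} ∪ VB k v
  have hO : ∀ q, IsOpen (O q) := by
    rintro (d | v)
    · exact isOpen_ne_fun continuous_fst continuous_const
    · exact (isOpen_lt continuous_const continuous_fst).union
        (WW_open (pB_cont (et (k + 2)) v))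
  have hE : ∀ q, E ⊆ closure (E ∩ O q) := by
    rintro (d | v) x hx
    · refine closure_mono ?_ (mem_closure_ne hx d)
      intro y hy
      exact ⟨hy.1, hy.2⟩
    · by_cases hxr : x.1 < -2 + gp' (k + 2)
      · have h1 := E_sub_gen (pB_cont (et (k + 2)) v) (fun q => pB_nonneg _ _ _ _)
          (one_pos : (0 : ℝ) < 1) (r := -2 + gp' (k + 2))
          (fun c hc hcr => hB_branch hc.1 hcr.le v) hx hxr
        refine closure_mono ?_ h1
        intro y hy
        exact ⟨Et_sub _ hy.1, Or.inr hy.2⟩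
      · refine subset_closure ⟨hx, Or.inl ?_⟩
        change -2 + gp' (k + 2) / 2 < x.1
        push Not at hxr
        linarith
  obtain ⟨c, μ, hcU, hgen, hO'⟩ := exists_gen_in O hO hE hG
    (U := Ioo (-2) (min (-2 + δ) (-2 + gp' (k + 2) / 2))) isOpen_Ioo ⟨b1, lt_min b5 b6⟩
  have hV : ∀ v : List (BB k), ((c, μ) : ℝ × ProbabilityMeasure II) ∈ VB k v := by
    intro v
    rcases hO' (Sum.inr v) with h | h
    · have h1 : -2 + gp' (k + 2) / 2 < c := h
      have h2 := hcU.2.trans_le (min_le_right _ _)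
      linarith
    · exact h
  have hcP := hP c hcU.1 (hcU.2.trans_le (min_le_left _ _)) μ hgen hV
  exact hO' (Sum.inl ⟨c, hcP⟩) rfl

end Pool.Agent.H99.NM
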